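import Pool.Agent.Helper44.HD.Main

namespace Pool.Agent.Results.MP_3dc3c5_gt.HorosphereCriterion

open Set Filter Topology Pool.Agent.Helper44.HD
open scoped NNReal ENNReal

universe u

/-- `Y` is an absolute Lipschitz retract with constant `L`: for every isometric embedding
`ι` of `Y` into a metric space `X` there is an `L`-Lipschitz map `r : X → Y` with
`r (ι y) = y` for all `y`. -/
def IsALR (L : ℝ≥0) (Y : Type u) [MetricSpace Y] : Prop :=
  ∀ (X : Type u) [MetricSpace X] (ι : Y → X), Isometry ι →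
    ∃ r : X → Y, LipschitzWith L r ∧ ∀ y, r (ι y) = y

section

variable {M : Type u} [MetricSpace M]

/-- The inclusion into `M` of every level set of `b`, with the metric `m`, extends to an
`L`-Lipschitz map on every metric space which contains the level set isometrically. -/
def ExactExt (L : ℝ≥0) (b : M → ℝ) (m : M → M → ℝ) : Prop :=
  ∀ (β : ℝ) (Z : Type u) [MetricSpace Z] (ι : M → Z),
    (∀ p q, b p = β → b q = β → dist (ι p) (ι q) = m p q) →
    ∃ g : Z → M, LipschitzWith L g ∧ ∀ p, b p = β → g (ι p) = p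

/-- Every nonempty level set of `b`, with the metric `m`, is an absolute Lipschitz retract
with constant `L`. -/
def LevelsALR (L : ℝ≥0) (b : M → ℝ) (m : M → M → ℝ) : Prop :=
  ∀ β : ℝ, (∃ p, b p = β) → ∀ (Z : Type u) [MetricSpace Z] (ι : M → Z),
    (∀ p q, b p = β → b q = β → dist (ι p) (ι q) = m p q) →
    ∃ g : Z → M, (∀ x, b (g x) = β) ∧ (∀ x y, m (g x) (g y) ≤ L * dist x y) ∧
      ∀ p, b p = β → g (ι p) = p

/-- Every nonempty level set of `b`, with the metric `m`, is in bijection with the product of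
the spaces `N i`, and up to the factor `K` the metric `m` is the maximum of rescaled metrics
`c i * dist` of the factors; the scaling factors may depend on the level. -/
def LevelsProduct (K : ℝ≥0) (b : M → ℝ) (m : M → M → ℝ) {k : ℕ} (N : Fin k → Type u)
    [∀ i, MetricSpace (N i)] : Prop :=
  ∀ β : ℝ, (∃ p, b p = β) → ∃ (φ : ∀ i, M → N i) (c : Fin k → ℝ), (∀ i, 0 < c i) ∧
    (∀ p q, b p = β → b q = β → ∀ i, c i * dist (φ i p) (φ i q) ≤ m p q) ∧
    (∀ p q, b p = β → b q = β → ∀ r : ℝ, 0 ≤ r →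
      (∀ i, c i * dist (φ i p) (φ i q) ≤ r) → m p q ≤ K * r) ∧
    ∀ y : ∀ i, N i, ∃ p, b p = β ∧ ∀ i, φ i p = y i

theorem IsALR.exists_extend {N : Type u} [MetricSpace N] [Nonempty N] {L : ℝ≥0}
    (hN : IsALR L N) {Z : Type u} [MetricSpace Z] {s : Set Z} {f : Z → N} {K : ℝ≥0}
    (hf : LipschitzOnWith K f s) : ∃ g : Z → N, LipschitzWith (L * K) g ∧ EqOn f g s := by
  obtain ⟨J, hJ, -⟩ := exists_kur (T := N) (fun p q => dist p q) (fun p => dist_self p)
    (fun p q => dist_comm p q) (fun p q s => dist_triangle p q s) (Classical.arbitrary N)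
  obtain ⟨r, hr, hr2⟩ := hN (lp (fun _ : N => ℝ) ∞) J (Isometry.of_dist_eq hJ)
  have hlip : LipschitzOnWith K (fun x => J (f x)) s := by
    refine LipschitzOnWith.of_dist_le_mul fun x hx y hy => ?_
    rw [hJ]
    exact hf.dist_le_mul x hx y hy
  obtain ⟨F, hF, hF2⟩ := hlip.extend_lp_infty
  refine ⟨fun x => r (F x), hr.comp hF, fun x hx => ?_⟩
  have h1 := hF2 hx
  simp only at h1
  change f x = r (F x)
  rw [← h1, hr2]

theorem injOn_of_level {b : M → ℝ} {m : M → M → ℝ} (hm : IsLevelMetric b m) {β : ℝ}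
    {Z : Type u} [MetricSpace Z] {ι : M → Z}
    (hι : ∀ p q, b p = β → b q = β → dist (ι p) (ι q) = m p q) :
    InjOn ι {p | b p = β} := by
  intro p hp q hq hpq
  have hp' : b p = β := hp
  have hq' : b q = β := hq
  have h1 := hm.dist_le p q (by rw [hp', hq'])
  rw [← hι p q hp' hq', hpq, dist_self] at h1
  exact dist_le_zero.1 h1

theorem exactExt_of_isALR {L : ℝ≥0} (hM : IsALR L M) {b : M → ℝ} {m : M → M → ℝ}
    (hm : IsLevelMetric b m) [Nonempty M] : ExactExt L b m := by
  intro β Z _ ι hι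
  have hinv : ∀ p, b p = β → Function.invFunOn ι {p | b p = β} (ι p) = p := fun p hp =>
    (injOn_of_level hm hι).leftInvOn_invFunOn hp
  have hlip : LipschitzOnWith 1 (fun x => Function.invFunOn ι {p | b p = β} x)
      (ι '' {p | b p = β}) := by
    refine LipschitzOnWith.of_dist_le_mul ?_
    rintro _ ⟨p, hp, rfl⟩ _ ⟨q, hq, rfl⟩
    have hp' : b p = β := hp
    have hq' : b q = β := hq
    simp only [hinv p hp', hinv q hq']
    rw [hι p q hp' hq', NNReal.coe_one, one_mul]
    exact hm.dist_le p q (by rw [hp', hq'])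
  obtain ⟨g, hg, hg2⟩ := hM.exists_extend hlip
  rw [mul_one] at hg
  refine ⟨g, hg, fun p hp => ?_⟩
  have h1 := hg2 ⟨p, hp, rfl⟩
  simp only [hinv p hp] at h1
  exact h1.symm

theorem levelsALR_of_product {L K : ℝ≥0} {b : M → ℝ} {m : M → M → ℝ}
    (hm : IsLevelMetric b m) [Nonempty M] {k : ℕ} {N : Fin k → Type u}
    [∀ i, MetricSpace (N i)] (hN : ∀ i, IsALR L (N i)) (hP : LevelsProduct K b m N) :
    LevelsALR (K * L) b m := by
  intro β hβ Z _ ι hι
  obtain ⟨φ, c, hc, h1, h2, h3⟩ := hP β hβ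
  obtain ⟨p0, hp0⟩ := hβ
  have hne : ∀ i, Nonempty (N i) := fun i => ⟨φ i p0⟩
  have hinv : ∀ p, b p = β → Function.invFunOn ι {p | b p = β} (ι p) = p := fun p hp =>
    (injOn_of_level hm hι).leftInvOn_invFunOn hp
  have hlip : ∀ i, LipschitzOnWith (Real.toNNReal (1 / c i))
      (fun x => φ i (Function.invFunOn ι {p | b p = β} x)) (ι '' {p | b p = β}) := by
    intro i
    refine LipschitzOnWith.of_dist_le_mul ?_
    rintro _ ⟨p, hp, rfl⟩ _ ⟨q, hq, rfl⟩
    have hp' : b p = β := hp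
    have hq' : b q = β := hq
    simp only [hinv p hp', hinv q hq']
    have hc' : 0 ≤ 1 / c i := (one_div_pos.2 (hc i)).le
    rw [hι p q hp' hq', Real.coe_toNNReal _ hc', one_div, inv_mul_eq_div, le_div_iff₀ (hc i),
      mul_comm]
    exact h1 p q hp' hq' i
  choose g hg hg2 using fun i => (hN i).exists_extend (hlip i)
  choose P hP1 hP2 using fun x => h3 (fun i => g i x)
  refine ⟨P, hP1, fun x y => ?_, fun p hp => ?_⟩
  · have h4 := h2 (P x) (P y) (hP1 x) (hP1 y) (L * dist x y) (by positivity) (by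
      intro i
      have h5 := (hg i).dist_le_mul x y
      have hc' : 0 ≤ 1 / c i := (one_div_pos.2 (hc i)).le
      rw [NNReal.coe_mul, Real.coe_toNNReal _ hc'] at h5
      rw [hP2 x i, hP2 y i]
      have h6 := mul_le_mul_of_nonneg_left h5 (hc i).le
      refine h6.trans (le_of_eq ?_)
      have := (hc i).ne'
      field_simp)
    rw [NNReal.coe_mul, mul_assoc]
    exact h4
  · have h4 := h2 (P (ι p)) p (hP1 _) hp 0 le_rfl (by
      intro i
      have h5 := hg2 i ⟨p, hp, rfl⟩
      simp only [hinv p hp] at h5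
      rw [hP2 (ι p) i, ← h5, dist_self, mul_zero])
    rw [mul_zero] at h4
    have h6 := hm.dist_le (P (ι p)) p (by rw [hP1, hp])
    exact dist_le_zero.1 (h6.trans h4)

end

theorem result {M : Type u} [MetricSpace M] [CompleteSpace M] (h : IsCN M)
    {γ : ℝ → M} (hγ : IsRay γ) {m : M → M → ℝ} (hm : IsLevelMetric (busemann γ) m)
    (L : ℝ≥0) :
    (ApproxExt L (busemann γ) m → IsALR (7000000 * (L + 1)) M) ∧
    (IsALR L M → ExactExt L (busemann γ) m) ∧
    (ExactExt L (busemann γ) m → ApproxExt L (busemann γ) m) ∧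
    (LevelsALR L (busemann γ) m → IsALR (7000000 * (L + 1)) M) ∧
    (∀ (K : ℝ≥0) (k : ℕ) (N : Fin k → Type u) [∀ i, MetricSpace (N i)],
      (∀ i, IsALR L (N i)) → LevelsProduct K (busemann γ) m N →
        IsALR (7000000 * (K * L + 1)) M) := by
  have hne : Nonempty M := ⟨γ 0⟩
  have h1 : ∀ L : ℝ≥0, ApproxExt L (busemann γ) m → IsALR (7000000 * (L + 1)) M :=
    fun L hA X _ ι hι => exists_retract (isHoro_busemann h hγ) hm hA hι
  have h2 : ∀ L : ℝ≥0, LevelsALR L (busemann γ) m → IsALR (7000000 * (L + 1)) M := by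
    intro L hA
    refine h1 L ?_
    intro β τ hτ Z _ ι hι hZ
    by_cases hβ : ∃ p, busemann γ p = β
    · obtain ⟨g, hg1, hg2, hg3⟩ := hA β hβ Z ι hι
      refine ⟨g, LipschitzWith.of_dist_le_mul fun x y => ?_, fun p hp => ?_⟩
      · exact (hm.dist_le (g x) (g y) (by rw [hg1, hg1])).trans (hg2 x y)
      · rw [hg3 p hp, dist_self]
        positivity
    · have hZe : IsEmpty Z := ⟨fun x => by
        obtain ⟨p, hp, -⟩ := hZ x
        exact hβ ⟨p, hp⟩⟩
      exact ⟨fun x => (hZe.false x).elim, fun x => (hZe.false x).elim,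
        fun p hp => absurd ⟨p, hp⟩ hβ⟩
  refine ⟨h1 L, fun hM => exactExt_of_isALR hM hm, ?_, h2 L,
    fun K k N _ hN hP => h2 (K * L) (levelsALR_of_product hm hN hP)⟩
  · intro hE β τ hτ Z _ ι hι hZ
    obtain ⟨g, hg, hg2⟩ := hE β Z ι hι
    refine ⟨g, hg, fun p hp => ?_⟩
    rw [hg2 p hp, dist_self]
    positivity

end Pool.Agent.Results.MP_3dc3c5_gt.HorosphereCriterion
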