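import Pool.Agent.Helper44.HD.Coarse

namespace Pool.Agent.Results.MP_3dc3c5_gt.QuasiIsometryInvariance

open Set Filter Topology Pool.Agent.Helper44.HD
open scoped NNReal ENNReal

universe u

/-- `f` is coarsely Lipschitz with constant `A`. -/
def CoarseLip {M N : Type u} [MetricSpace M] [MetricSpace N] (A : ℝ≥0) (f : M → N) : Prop :=
  ∀ x y, dist (f x) (f y) ≤ A * dist x y + A

theorem nonempty_of_coarse {L : ℝ≥0} {M : Type u} [MetricSpace M]
    (hL : CoarseLipRetract L M) : Nonempty M := by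
  by_contra hne
  rw [not_nonempty_iff] at hne
  obtain ⟨r, -⟩ := hL PUnit.{u + 1} (fun x => (hne.false x).elim)
    (Isometry.of_dist_eq fun x => (hne.false x).elim)
  exact hne.false (r PUnit.unit)

theorem coarse_of_abs {L : ℝ≥0} {M : Type u} [MetricSpace M]
    (hL : AbsLipRetract L M) : CoarseLipRetract L M := by
  intro X _ ι hι
  obtain ⟨r, hr, hr2⟩ := hL X ι hι
  refine ⟨r, hr, fun y => ?_⟩
  rw [hr2, dist_self]
  exact L.2

theorem main_one (L : ℝ≥0) (D : ℕ) (M : Type u) [MetricSpace M] [CompleteSpace M]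
    (h : IsCN M) (hD : ∀ r : ℝ, 0 < r → r ≤ 1 → DoublingAt D r M)
    (hL : CoarseLipRetract L M) : AbsLipRetract (170000 * (L + D + 1)) M := by
  have hne := nonempty_of_coarse hL
  intro X _ ι hι
  obtain ⟨r, hr, hr2⟩ := absLipRetract_of_coarse h hD hL X ι hι
  refine ⟨r, hr.weaken ?_, hr2⟩
  rw [← NNReal.coe_le_coe]
  push_cast
  have h1 : (0 : ℝ) ≤ L := L.2
  have h2 : (0 : ℝ) ≤ D := Nat.cast_nonneg D
  linarith

theorem main_two (A L : ℝ≥0) (D : ℕ) (M N : Type u) [MetricSpace M] [CompleteSpace M]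
    [MetricSpace N] (h : IsCN M) (hD : ∀ r : ℝ, 0 < r → r ≤ 1 → DoublingAt D r M)
    (hDN : DoublingAt D 1 N) (hN : AbsLipRetract L N) (φ : M → N) (ψ : N → M)
    (hφ : CoarseLip A φ) (hψ : CoarseLip A ψ) (hφψ : ∀ x, dist (ψ (φ x)) x ≤ A) :
    AbsLipRetract (170000 * (48 * A ^ 2 * L * (D + 1) + 4 * A + D + 2)) M := by
  have hneN := nonempty_of_coarse (coarse_of_abs hN)
  have hne : Nonempty M := hneN.map ψ
  have h1 := coarseLipRetract_of_retract h hDN hN hφ hψ hφψ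
  intro X _ ι hι
  obtain ⟨r, hr, hr2⟩ := main_one _ D M h hD h1 X ι hι
  refine ⟨r, hr.weaken ?_, hr2⟩
  rw [← NNReal.coe_le_coe]
  push_cast
  have h1 : (0 : ℝ) ≤ (A : ℝ) ^ 2 * L := by positivity
  have h2 : (0 : ℝ) ≤ D := Nat.cast_nonneg D
  nlinarith [h1, h2]

theorem result (A L : ℝ≥0) (D : ℕ) :
    (∀ (M : Type u) [MetricSpace M] [CompleteSpace M], IsCN M →
      (∀ r : ℝ, 0 < r → r ≤ 1 → DoublingAt D r M) → CoarseLipRetract L M →
        AbsLipRetract (170000 * (L + D + 1)) M) ∧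
    (∀ (M N : Type u) [MetricSpace M] [CompleteSpace M] [MetricSpace N], IsCN M →
      (∀ r : ℝ, 0 < r → r ≤ 1 → DoublingAt D r M) → DoublingAt D 1 N → AbsLipRetract L N →
      ∀ (φ : M → N) (ψ : N → M), CoarseLip A φ → CoarseLip A ψ →
        (∀ x, dist (ψ (φ x)) x ≤ A) →
          AbsLipRetract (170000 * (48 * A ^ 2 * L * (D + 1) + 4 * A + D + 2)) M) ∧
    (∀ (M N : Type u) [MetricSpace M] [CompleteSpace M] [MetricSpace N] [CompleteSpace N],
      IsCN M → IsCN N → (∀ r : ℝ, 0 < r → r ≤ 1 → DoublingAt D r M) →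
      (∀ r : ℝ, 0 < r → r ≤ 1 → DoublingAt D r N) →
      ∀ (φ : M → N) (ψ : N → M), CoarseLip A φ → CoarseLip A ψ →
        (∀ x, dist (ψ (φ x)) x ≤ A) → (∀ u, dist (φ (ψ u)) u ≤ A) →
          ((∃ C, AbsLipRetract C M) ↔ ∃ C, AbsLipRetract C N)) := by
  refine ⟨fun M _ _ h hD hL => main_one L D M h hD hL,
    fun M N _ _ _ h hD hDN hN φ ψ hφ hψ hφψ => main_two A L D M N h hD hDN hN φ ψ hφ hψ hφψ,
    ?_⟩
  intro M N _ _ _ _ hM hN hDM hDN φ ψ hφ hψ hφψ hψφ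
  constructor
  · rintro ⟨C, hC⟩
    exact ⟨_, main_two A C D N M hN hDN (hDM 1 one_pos le_rfl) hC ψ φ hψ hφ hψφ⟩
  · rintro ⟨C, hC⟩
    exact ⟨_, main_two A C D M N hM hDM (hDN 1 one_pos le_rfl) hC φ ψ hφ hψ hφψ⟩

end Pool.Agent.Results.MP_3dc3c5_gt.QuasiIsometryInvariance
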